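import Pool.Agent.L5helper59.ZT.RDefs

/-!
# The permanent is irreducible over every field
-/

set_option autoImplicit false

open Finset MvPolynomial Filter

namespace Pool.Agent.L5helper59.ZT

open Pool.Agent.L5helper88.Model

variable {K : Type} [Field K]

/-- the scaling of the variables with `s v` -/
private noncomputable def scl {ι : Type} (s : ι → Prop) [DecidablePred s] :
    MvPolynomial ι K →ₐ[K] Polynomial (MvPolynomial ι K) :=
  aeval fun v => if s v then Polynomial.C (X v) * Polynomial.X else Polynomial.C (X v)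

private lemma scl_one {ι : Type} (s : ι → Prop) [DecidablePred s] (f : MvPolynomial ι K) :
    (scl s f).eval 1 = f := by
  have : ((Polynomial.aeval (1 : MvPolynomial ι K)).restrictScalars K).comp (scl s) =
      AlgHom.id K (MvPolynomial ι K) := by
    apply MvPolynomial.algHom_ext
    intro v
    simp only [scl, AlgHom.comp_apply, aeval_X, AlgHom.restrictScalars_apply, AlgHom.id_apply]
    split_ifs <;> simp
  have h := DFunLike.congr_fun this f
  simpa [Polynomial.aeval_def, Polynomial.eval₂_eq_eval_map] using h

private lemma scl_zero {ι : Type} (s : ι → Prop) [DecidablePred s] (f : MvPolynomial ι K) :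
    (scl s f).eval 0 = aeval (fun v => if s v then 0 else (X v : MvPolynomial ι K)) f := by
  have : ((Polynomial.aeval (0 : MvPolynomial ι K)).restrictScalars K).comp (scl s) =
      aeval (fun v => if s v then 0 else (X v : MvPolynomial ι K)) := by
    apply MvPolynomial.algHom_ext
    intro v
    simp only [scl, AlgHom.comp_apply, aeval_X, AlgHom.restrictScalars_apply]
    split_ifs <;> simp
  have h := DFunLike.congr_fun this f
  simpa [Polynomial.aeval_def, Polynomial.eval₂_eq_eval_map] using h

private lemma notMem_of_natDegree {ι : Type} (s : ι → Prop) [DecidablePred s]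
    (f : MvPolynomial ι K) (h : (scl s f).natDegree = 0) (v : ι) (hv : s v) : v ∉ f.vars := by
  classical
  have h1 := Polynomial.eq_C_of_natDegree_eq_zero h
  have h2 := scl_one s f
  have h3 := scl_zero s f
  rw [h1, Polynomial.eval_C] at h2 h3
  have h4 : f = bind₁ (fun v => if s v then 0 else (X v : MvPolynomial ι K)) f :=
    h2.symm.trans h3
  intro hmem
  rw [h4] at hmem
  obtain ⟨w, -, hw⟩ := mem_vars_bind₁ _ _ hmem
  split_ifs at hw with hs
  · simp at hw
  · rw [vars_X, Finset.mem_singleton] at hw
    exact hs (hw ▸ hv)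

private lemma perm_eq (m : ℕ) : perm K m = ∑ σ : Equiv.Perm (Fin m), ∏ k, X (σ k, k) := rfl

private lemma scl_perm (m : ℕ) (s : Fin m × Fin m → Prop) [DecidablePred s]
    (hs : ∀ σ : Equiv.Perm (Fin m), (univ.filter fun k => s (σ k, k)).card = 1) :
    scl s (perm K m) = Polynomial.C (perm K m) * Polynomial.X := by
  rw [perm_eq, map_sum, map_sum, Finset.sum_mul]
  refine Finset.sum_congr rfl fun σ _ => ?_
  rw [map_prod, map_prod]
  have h1 : ∀ k, scl s (X (σ k, k) : MvPolynomial (Fin m × Fin m) K) =
      Polynomial.C (X (σ k, k)) * (if s (σ k, k) then Polynomial.X else 1) := by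
    intro k
    rw [scl, aeval_X]
    split_ifs
    · rfl
    · rw [mul_one]
  rw [Finset.prod_congr rfl fun k _ => h1 k, Finset.prod_mul_distrib, Finset.prod_ite,
    Finset.prod_const, Finset.prod_const_one, mul_one, hs σ, pow_one]

private lemma mem_vars_perm (m : ℕ) (i j : Fin m) : (i, j) ∈ (perm K m).vars := by
  classical
  by_contra h
  set τ : Equiv.Perm (Fin m) := Equiv.swap i j with hτ
  set x : Fin m × Fin m → K := fun v => if v.1 = τ v.2 then 1 else 0 with hx
  set y : Fin m × Fin m → K := fun v => if v = (i, j) then 0 else x v with hy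
  have h1 : eval x (perm K m) = eval y (perm K m) := by
    refine hom_congr_vars (f₁ := eval x) (f₂ := eval y) (by ext; simp) (fun v hv _ => ?_) rfl
    rw [eval_X, eval_X, hy]
    have : v ≠ (i, j) := fun hv' => h (hv' ▸ hv)
    simp [this]
  have h2 : eval x (perm K m) = 1 := by
    rw [perm_eq, map_sum, Finset.sum_eq_single τ]
    · rw [map_prod]
      refine Finset.prod_eq_one fun k _ => ?_
      rw [eval_X, hx]
      simp
    · intro σ _ hσ
      obtain ⟨k, hk⟩ : ∃ k, σ k ≠ τ k := by
        by_contra hall
        push Not at hall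
        exact hσ (Equiv.ext hall)
      rw [map_prod]
      refine Finset.prod_eq_zero (Finset.mem_univ k) ?_
      rw [eval_X, hx]
      simp [hk]
    · intro h; exact absurd (Finset.mem_univ _) h
  have h3 : eval y (perm K m) = 0 := by
    rw [perm_eq, map_sum]
    refine Finset.sum_eq_zero fun σ _ => ?_
    rw [map_prod]
    by_cases hσ : σ = τ
    · refine Finset.prod_eq_zero (Finset.mem_univ j) ?_
      rw [eval_X, hy, hσ, hτ, Equiv.swap_apply_right]
      simp
    · obtain ⟨k, hk⟩ : ∃ k, σ k ≠ τ k := by
        by_contra hall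
        push Not at hall
        exact hσ (Equiv.ext hall)
      refine Finset.prod_eq_zero (Finset.mem_univ k) ?_
      rw [eval_X, hy, hx]
      simp [hk]
  rw [h2, h3] at h1
  exact one_ne_zero h1

private lemma factor_or (m : ℕ) (hm : 1 ≤ m) (s : Fin m × Fin m → Prop) [DecidablePred s]
    (hs : ∀ σ : Equiv.Perm (Fin m), (univ.filter fun k => s (σ k, k)).card = 1)
    (g h : MvPolynomial (Fin m × Fin m) K) (hgh : perm K m = g * h) :
    (∀ v, s v → v ∉ g.vars) ∨ (∀ v, s v → v ∉ h.vars) := by
  have hP : perm K m ≠ 0 := by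
    intro h0
    have := mem_vars_perm (K := K) m ⟨0, by omega⟩ ⟨0, by omega⟩
    rw [h0] at this
    simp at this
  have hg : g ≠ 0 := fun h0 => hP (by rw [hgh, h0, zero_mul])
  have hh : h ≠ 0 := fun h0 => hP (by rw [hgh, h0, mul_zero])
  have hne : ∀ f : MvPolynomial (Fin m × Fin m) K, f ≠ 0 → scl s f ≠ 0 := by
    intro f hf h0
    apply hf
    rw [← scl_one s f, h0, Polynomial.eval_zero]
  have h1 := scl_perm (K := K) m s hs
  have h2 : (scl s g).natDegree + (scl s h).natDegree = 1 := by
    rw [← Polynomial.natDegree_mul (hne g hg) (hne h hh), ← map_mul, ← hgh, h1,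
      Polynomial.natDegree_C_mul_X _ hP]
  rcases Nat.eq_zero_or_pos (scl s g).natDegree with h3 | h3
  · exact Or.inl fun v hv => notMem_of_natDegree s g h3 v hv
  · exact Or.inr fun v hv => notMem_of_natDegree s h (by omega) v hv

/-- T1 -/
theorem perm_irreducible_field (K : Type) [Field K] (m : ℕ) (hm : 1 ≤ m) : Irreducible (perm K m) := by
  classical
  have hunit : ∀ f : MvPolynomial (Fin m × Fin m) K, f ≠ 0 → (∀ v, v ∉ f.vars) → IsUnit f := by
    intro f hf hv
    have h1 : f.vars = ∅ := Finset.eq_empty_of_forall_notMem hv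
    rw [vars_eq_empty_iff_eq_C] at h1
    rw [h1]
    refine IsUnit.map C (isUnit_iff_ne_zero.2 fun h0 => hf ?_)
    rw [h1, h0, C_0]
  have hP : perm K m ≠ 0 := by
    intro h0
    have := mem_vars_perm (K := K) m ⟨0, by omega⟩ ⟨0, by omega⟩
    rw [h0] at this
    simp at this
  constructor
  · intro hu
    rw [isUnit_iff_eq_C_of_isReduced] at hu
    obtain ⟨r, -, hr⟩ := hu
    have := mem_vars_perm (K := K) m ⟨0, by omega⟩ ⟨0, by omega⟩
    rw [hr, vars_C] at this
    simp at this
  · intro g h hgh
    have hg : g ≠ 0 := fun h0 => hP (by rw [hgh, h0, zero_mul])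
    have hh : h ≠ 0 := fun h0 => hP (by rw [hgh, h0, mul_zero])
    have hrow : ∀ i : Fin m, (∀ j, (i, j) ∉ g.vars) ∨ (∀ j, (i, j) ∉ h.vars) := by
      intro i
      have h1 := factor_or m hm (fun v => v.1 = i) (fun σ => by
        have : (univ.filter fun k => (σ k, k).1 = i) = {σ.symm i} := by
          ext k
          simp [Equiv.eq_symm_apply]
        rw [this, Finset.card_singleton]) g h hgh
      rcases h1 with h1 | h1
      · exact Or.inl fun j => h1 (i, j) rfl
      · exact Or.inr fun j => h1 (i, j) rfl
    have hcol : ∀ j : Fin m, (∀ i, (i, j) ∉ g.vars) ∨ (∀ i, (i, j) ∉ h.vars) := by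
      intro j
      have h1 := factor_or m hm (fun v => v.2 = j) (fun σ => by
        have : (univ.filter fun k => (σ k, k).2 = j) = {j} := by
          ext k
          simp
        rw [this, Finset.card_singleton]) g h hgh
      rcases h1 with h1 | h1
      · exact Or.inl fun i => h1 (i, j) rfl
      · exact Or.inr fun i => h1 (i, j) rfl
    have hall : ∀ i j : Fin m, (i, j) ∈ g.vars ∨ (i, j) ∈ h.vars := by
      intro i j
      have h1 := mem_vars_perm (K := K) m i j
      rw [hgh] at h1
      exact Finset.mem_union.1 (vars_mul g h h1)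
    -- the first column decides
    rcases hcol ⟨0, by omega⟩ with h1 | h1
    · left
      apply hunit g hg
      rintro ⟨i, j⟩ hv
      rcases hrow i with h2 | h2
      · exact h2 j hv
      · rcases hall i ⟨0, by omega⟩ with h3 | h3
        · exact h1 i h3
        · exact h2 _ h3
    · right
      apply hunit h hh
      rintro ⟨i, j⟩ hv
      rcases hrow i with h2 | h2
      · rcases hall i ⟨0, by omega⟩ with h3 | h3
        · exact h2 _ h3
        · exact h1 i h3
      · exact h2 j hv

end Pool.Agent.L5helper59.ZT
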